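import Pool.Agent.Y329.CG.Stm
import Mathlib.GroupTheory.FreeGroup.Orbit

/-! There is no almost right-invariant finitely additive probability measure on the free group
(helper50, project CG of helper329). -/

set_option autoImplicit false

open Set

namespace Pool.Agent.Y50.CG

open Pool.Agent.Y329.CG

theorem mem_of_notMem (i : Fin 2) (y : FreeGroup (Fin 2))
    (hy : FreeGroup.of i * y ∉ FreeGroup.startsWith (i, true)) :
    y ∈ FreeGroup.startsWith (i, false) := by
  by_contra hcon
  exact hy (FreeGroup.startsWith_mk_mul (w := (i, true)) y hcon)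

/-- no almost invariant measure -/
theorem fa : S_FA := by
  rintro ⟨μ, h0, h1, hadd, hinv⟩
  have hmono : ∀ A B : Set F2, A ⊆ B → μ A ≤ μ B := by
    intro A B hAB
    have h2 := hadd A (B \ A) disjoint_sdiff_right
    rw [union_sdiff_cancel hAB] at h2
    have := h0 (B \ A)
    linarith
  have hcompl : ∀ A : Set F2, μ Aᶜ = 1 - μ A := by
    intro A
    have h2 := hadd A Aᶜ disjoint_compl_right
    rw [union_compl_self, h1] at h2
    linarith
  obtain ⟨S, hS⟩ : ∃ S : Fin 2 × Bool → Set F2, ∀ w, S w = {x | x⁻¹ ∈ FreeGroup.startsWith w} :=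
    ⟨_, fun _ => rfl⟩
  have hdis : ∀ w w' : Fin 2 × Bool, w ≠ w' → Disjoint (S w) (S w') := by
    intro w w' hw
    rw [hS, hS, Set.disjoint_left]
    intro x hx hx'
    exact (Set.disjoint_left.mp (FreeGroup.startsWith.disjoint_iff_ne.mpr hw)) hx hx'
  have key : ∀ i : Fin 2, 19 / 20 ≤ μ (S (i, true)) + μ (S (i, false)) := by
    intro i
    have h2 := hinv i (S (i, true))ᶜ
    have h3 : {x : F2 | x * (FreeGroup.of i)⁻¹ ∈ (S (i, true))ᶜ} ⊆ S (i, false) := by
      intro x hx
      rw [hS] at hx ⊢
      have hx' : ¬ (x * (FreeGroup.of i)⁻¹)⁻¹ ∈ FreeGroup.startsWith (i, true) := hx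
      rw [mul_inv_rev, inv_inv] at hx'
      exact mem_of_notMem i x⁻¹ hx'
    have h4 := hmono _ _ h3
    rw [hcompl (S (i, true))] at h2
    have h5 := (abs_le.mp h2).1
    linarith
  have k0 := key 0
  have k1 := key 1
  have u1 := hadd (S (0, true)) (S (0, false)) (hdis _ _ (by decide))
  have u2 := hadd (S (1, true)) (S (1, false)) (hdis _ _ (by decide))
  have u3 := hadd (S (0, true) ∪ S (0, false)) (S (1, true) ∪ S (1, false)) (by
    rw [Set.disjoint_union_left, Set.disjoint_union_right, Set.disjoint_union_right]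
    exact ⟨⟨hdis _ _ (by decide), hdis _ _ (by decide)⟩, hdis _ _ (by decide),
      hdis _ _ (by decide)⟩)
  have u4 := hmono _ _ (Set.subset_univ (S (0, true) ∪ S (0, false) ∪ (S (1, true) ∪ S (1, false))))
  rw [h1, u3, u1, u2] at u4
  linarith

end Pool.Agent.Y50.CG
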